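import Pool.Agent.Helper65.KPZ.St

/-! # Module ZVE: a Veronese subalgebra is generated in degree one -/

set_option autoImplicit false

namespace Pool.Agent.Helper28.KPZ

open Pool.Agent.Helper65.KPZ

universe u

private theorem one_mem_F {A : Type u} [CommRing A] [Algebra ℂ A] {D : ℕ → Submodule ℂ A}
    {F : ℕ → ℤ → Submodule ℂ A} (h : AF D F) : (1 : A) ∈ F 0 0 := by
  rw [h.zero.1 0 le_rfl, h.D0]
  exact Submodule.subset_span rfl

private theorem pow_mem_F {A : Type u} [CommRing A] [Algebra ℂ A] {D : ℕ → Submodule ℂ A}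
    {F : ℕ → ℤ → Submodule ℂ A} (h : AF D F) (k : ℕ) (l : ℤ) (f : A) (hf : f ∈ F k l) (n : ℕ) :
    f ^ n ∈ F (n * k) ((n : ℤ) * l) := by
  induction n with
  | zero => simpa using one_mem_F h
  | succ n ih =>
    have h1 := h.mul _ _ _ _ _ _ ih hf
    have e1 : (n + 1) * k = n * k + k := by ring
    have e2 : ((n + 1 : ℕ) : ℤ) * l = (n : ℤ) * l + l := by push_cast; ring
    rw [pow_succ, e1, e2]
    exact h1

private theorem prod_mem_F {A : Type u} [CommRing A] [Algebra ℂ A] {D : ℕ → Submodule ℂ A}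
    {F : ℕ → ℤ → Submodule ℂ A} (h : AF D F) {s : ℕ} (kk : Fin s → ℕ) (ll : Fin s → ℤ)
    (f : Fin s → A) (hf : ∀ i, f i ∈ F (kk i) (ll i)) (e : Fin s → ℕ) (t : Finset (Fin s)) :
    ∏ i ∈ t, f i ^ e i ∈ F (∑ i ∈ t, e i * kk i) (∑ i ∈ t, (e i : ℤ) * ll i) := by
  classical
  induction t using Finset.induction_on with
  | empty => simpa using one_mem_F h
  | insert a t ha ih =>
    rw [Finset.prod_insert ha, Finset.sum_insert ha, Finset.sum_insert ha]
    exact h.mul _ _ _ _ _ _ (pow_mem_F h _ _ _ (hf a) _) ih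

theorem hZVE (hZGE : StZGE.{u}) (hZCO : StZCO) : StZVE.{u} := by
  intro A _ _ D F h
  obtain ⟨s, kk, ll, f, hf, hspan⟩ := hZGE D F h
  set L : ℕ := ∏ i : Fin s, (if 0 < kk i then kk i else 1) with hLdef
  have hL : 0 < L := by
    rw [hLdef]
    refine Finset.prod_pos fun i _ => ?_
    split_ifs with h1
    · exact h1
    · exact Nat.one_pos
  have hdvd : ∀ i, 0 < kk i → kk i ∣ L := by
    intro i hi
    have h1 := Finset.dvd_prod_of_mem (fun i : Fin s => (if 0 < kk i then kk i else 1))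
      (Finset.mem_univ i)
    simpa only [if_pos hi] using h1
  refine ⟨(s + 1) * L, Nat.mul_pos (Nat.succ_pos s) hL, ?_⟩
  intro k l hk
  refine (hspan _ _).trans (Submodule.span_mono ?_)
  rintro x ⟨e, he1, he2, rfl⟩
  have hle : (s + 1 + (s + 1)) * L ≤ ∑ i, e i * kk i := by
    rw [he1]
    have h2 : 2 ≤ k + 1 := by omega
    calc (s + 1 + (s + 1)) * L = (s + 1) * L * 2 := by ring
      _ ≤ (s + 1) * L * (k + 1) := Nat.mul_le_mul_left _ h2
  obtain ⟨e', he', hsum⟩ := hZCO s L kk hL hdvd (s + 1) e hle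
  have h1 := prod_mem_F h kk ll f hf (fun i => e i - e' i) Finset.univ
  have h2 := prod_mem_F h kk ll f hf e' Finset.univ
  have hs1 : ∑ i, (e i - e' i) * kk i = (s + 1) * L * k := by
    have h3 : ∑ i, (e i - e' i) * kk i + ∑ i, e' i * kk i = ∑ i, e i * kk i := by
      rw [← Finset.sum_add_distrib]
      refine Finset.sum_congr rfl fun i _ => ?_
      rw [← Nat.add_mul, Nat.sub_add_cancel (he' i)]
    rw [hsum, he1] at h3
    have h4 : (s + 1) * L * (k + 1) = (s + 1) * L * k + (s + 1) * L := by ring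
    omega
  rw [hs1] at h1
  rw [hsum] at h2
  refine ⟨∑ i, ((e i - e' i : ℕ) : ℤ) * ll i, ∑ i, (e' i : ℤ) * ll i, _, _, ?_, h1, h2, ?_⟩
  · rw [← Finset.sum_add_distrib, ← he2]
    refine Finset.sum_congr rfl fun i _ => ?_
    rw [Nat.cast_sub (he' i)]
    ring
  · rw [← Finset.prod_mul_distrib]
    refine Finset.prod_congr rfl fun i _ => ?_
    rw [← pow_add, Nat.sub_add_cancel (he' i)]

end Pool.Agent.Helper28.KPZ
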